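import Pool.Agent.Lib.MP_4bb67e_lc.Subset
import Pool.Agent.Lib.Common.CookLevin.Count

/-!
LW-Approx (H) is `#P`-hard.
-/

set_option autoImplicit false

namespace Pool.Agent.Results.MP_4bb67e_lc.HardH

open Pool.Agent.Lib.MP_4bb67e_lc Pool.Agent.Lib.MP_acf5a6_lc Pool.Agent.Lib.Common.CookLevin

theorem result : ∀ f ∈ SharpP, ∃ (q : List Bool → List Inst) (g : List Bool × List ℚ → ℕ),
    N68a2faeb.IsPolyTime q ∧ N68a2faeb.IsPolyTime g ∧
      ∀ x, (∀ I ∈ q x, Valid I) ∧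
        ∀ ans : List ℚ, List.Forall₂ IsAnswer (q x) ans → g (x, ans) = f x := by
  rintro f ⟨p, R, hR, hf⟩
  obtain ⟨V, φ, hV, hφ, h⟩ := count_hard hR p
  let a : List Bool → List ℕ := fun x => items (pairs (V x) (φ x)) (tgt (uK (φ x)) (φ x))
  let t : List Bool → ℕ := fun x => target (pairs (V x) (φ x)) (tgt (uK (φ x)) (φ x))
  have ha : PT a := by fun_prop
  have ht : PT t := by fun_prop
  refine ⟨fun x => queries (a x) (t x), fun y => decode (a y.1) y.2,
    PT.isPolyTime (by fun_prop), PT.isPolyTime (by fun_prop), fun x => ?_⟩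
  obtain ⟨h1, h2⟩ := recover (items_pos (pairs (V x) (φ x)) (tgt (uK (φ x)) (φ x))) (t x)
  refine ⟨h1, fun ans hans => (h2 ans hans).trans ?_⟩
  rw [hf, ← (h x).2.2]
  exact Alt_count (h x).1 (h x).2.1

end Pool.Agent.Results.MP_4bb67e_lc.HardH
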