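import Pool.Agent.Lib.MP_4bb67e_lc.QueryV
import Pool.Agent.Lib.Common.CookLevin.Count

/-!
LW-Approx (V) is `#P`-hard.
-/

set_option autoImplicit false

namespace Pool.Agent.Results.MP_4bb67e_lc.HardV

open Pool.Agent.Lib.MP_4bb67e_lc Pool.Agent.Lib.MP_acf5a6_lc Pool.Agent.Lib.Common.CookLevin

theorem result : ∀ f ∈ SharpP, ∃ (q : List Bool → List InstV) (g : List Bool × List ℚ → ℕ),
    N68a2faeb.IsPolyTime q ∧ N68a2faeb.IsPolyTime g ∧
      ∀ x, (∀ I ∈ q x, ValidV I) ∧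
        ∀ ans : List ℚ, List.Forall₂ IsAnswerV (q x) ans → g (x, ans) = f x := by
  rintro f ⟨p, R, hR, hf⟩
  obtain ⟨V, φ, hV, hφ, h⟩ := count_hard hR p
  let a : List Bool → List ℕ := fun x => wtsV (pairs (V x) (φ x))
  let c : List Bool → ℤ := fun x => offV (pairs (V x) (φ x)) (tgt (uK (φ x)) (φ x))
  have ha : PT a := by fun_prop
  have hc : PT c := by fun_prop
  refine ⟨fun x => queriesV (a x) (c x), fun y => decodeV (a y.1) (c y.1) y.2,
    PT.isPolyTime (by fun_prop), PT.isPolyTime (by fun_prop), fun x => ?_⟩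
  obtain ⟨h1, h2⟩ := recoverV (a x) (c x)
  refine ⟨h1, fun ans hans => ?_⟩
  rw [hf, ← (h x).2.2]
  exact_mod_cast (h2 ans hans).trans (signs_count (h x).1 (h x).2.1)

end Pool.Agent.Results.MP_4bb67e_lc.HardV
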